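import Mathlib
import Pool.Agent.H24.FD.P3
import Pool.Agent.H31.FD.CRP
import Pool.Agent.H67.FD.STP

/-!
# MP_1f2761, k = 2: row CRF (crude bound for one scale)
-/

set_option autoImplicit false

open Finset Pool.K2 Pool.FD MeasureTheory

namespace Pool.Agent.H93.FD

open Pool.Agent.H24.FD

lemma look_back (l K : ℕ) (hl : 0 < l) (hK : 1 ≤ K) :
    ((l : ℝ) * (vv l K : ℝ)) ≤ 186 / 100 * Real.logb 2 K + l := by
  have hl0 : (0 : ℝ) < l := by exact_mod_cast hl
  have hlog : 0 ≤ Real.logb 2 K := Real.logb_nonneg (by norm_num) (by exact_mod_cast hK)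
  have h1 : (vv l K : ℝ) < 186 / 100 * Real.logb 2 K / l + 1 := by
    unfold vv
    exact Nat.ceil_lt_add_one (by positivity)
  have h2 := mul_le_mul_of_nonneg_left h1.le hl0.le
  have e : (l : ℝ) * (186 / 100 * Real.logb 2 K / l + 1) = 186 / 100 * Real.logb 2 K + l := by
    field_simp
  linarith

/-- the numeric conclusion -/
lemma crf_num (q m t₁ l K c n : ℕ) (hq : 2 ≤ q) (hl : 0 < l) (hn : n ≤ 2 * c)
    (hK : q ^ (t₁ + 1) ≤ K) (X : ℝ) (hX : X ≤ ((q : ℝ) * (2 : ℝ) ^ (l * vv l K)) ^ kk) :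
    6 ^ n * ((q : ℝ) ^ (kk * (m + 1 : ℝ)) * X) * (20 * (K : ℝ) ^ (-(505 / 1000 : ℝ))) * 100 ≤
      s0 q m t₁ l c := by
  have hkk : 0 ≤ kk := by unfold kk; norm_num
  have hkk1 : kk ≤ 1 := by unfold kk; norm_num
  have hq0 : (0 : ℝ) < q := by exact_mod_cast (by omega : 0 < q)
  have hq1 : (1 : ℝ) ≤ q := by exact_mod_cast (by omega : 1 ≤ q)
  have hK1 : 1 ≤ K := le_trans (Nat.one_le_pow _ _ (by omega)) hK
  have hK0 : (0 : ℝ) < K := by exact_mod_cast hK1
  have hlb := look_back l K hl hK1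
  -- X
  have hX2 : X ≤ q * ((K : ℝ) ^ (487692 / 1000000 : ℝ) * (2 : ℝ) ^ (27 / 100 * l : ℝ)) := by
    refine hX.trans ?_
    rw [Real.mul_rpow hq0.le (by positivity)]
    have e1 : (q : ℝ) ^ kk ≤ q := by
      calc (q : ℝ) ^ kk ≤ (q : ℝ) ^ (1 : ℝ) := Real.rpow_le_rpow_of_exponent_le hq1 hkk1
        _ = q := Real.rpow_one _
    have e2 : ((2 : ℝ) ^ (l * vv l K)) ^ kk ≤
        (K : ℝ) ^ (487692 / 1000000 : ℝ) * (2 : ℝ) ^ (27 / 100 * l : ℝ) := by
      rw [← Real.rpow_natCast (2 : ℝ) (l * vv l K), ← Real.rpow_mul (by norm_num)]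
      have e3 : (K : ℝ) ^ (487692 / 1000000 : ℝ) =
          (2 : ℝ) ^ (Real.logb 2 K * (487692 / 1000000)) := by
        rw [Real.rpow_mul (by norm_num), Real.rpow_logb (by norm_num) (by norm_num) hK0]
      rw [e3, ← Real.rpow_add (by norm_num)]
      apply Real.rpow_le_rpow_of_exponent_le (by norm_num)
      push_cast
      have h1 := mul_le_mul_of_nonneg_right hlb hkk
      have hl0 : (0 : ℝ) ≤ l := Nat.cast_nonneg _
      have e4 : (186 / 100 * Real.logb 2 K + l) * kk =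
          Real.logb 2 K * (487692 / 1000000) + 2622 / 10000 * l := by
        unfold kk; ring
      rw [e4] at h1
      nlinarith
    exact mul_le_mul e1 e2 (by positivity) hq0.le
  have hm1 : (q : ℝ) ^ (kk * (m + 1 : ℝ)) ≤ (q : ℝ) ^ (m + 1) := by
    rw [← Real.rpow_natCast (q : ℝ) (m + 1)]
    apply Real.rpow_le_rpow_of_exponent_le hq1
    push_cast
    have hm : (0 : ℝ) ≤ m := Nat.cast_nonneg _
    nlinarith
  have h6 : (6 : ℝ) ^ n ≤ 6 ^ (2 * c) := pow_le_pow_right₀ (by norm_num) hn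
  have hKK : (K : ℝ) ^ (487692 / 1000000 : ℝ) * (K : ℝ) ^ (-(505 / 1000 : ℝ)) ≤
      (q : ℝ) ^ (-(17 / 1000 * t₁ : ℝ)) := by
    rw [← Real.rpow_add hK0]
    have hK1' : (1 : ℝ) ≤ K := by exact_mod_cast hK1
    have a1 : (K : ℝ) ^ (487692 / 1000000 + -(505 / 1000) : ℝ) ≤ (K : ℝ) ^ (-(17 / 1000) : ℝ) :=
      Real.rpow_le_rpow_of_exponent_le hK1' (by norm_num)
    refine a1.trans ?_
    have hqt : (q : ℝ) ^ t₁ ≤ K := by
      have h1 : q ^ t₁ ≤ K := le_trans (Nat.pow_le_pow_right (by omega) (by omega)) hK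
      exact_mod_cast h1
    have a2 : (K : ℝ) ^ (-(17 / 1000) : ℝ) ≤ ((q : ℝ) ^ t₁) ^ (-(17 / 1000) : ℝ) :=
      Real.rpow_le_rpow_of_nonpos (by positivity) hqt (by norm_num)
    refine a2.trans (le_of_eq ?_)
    rw [← Real.rpow_natCast (q : ℝ) t₁, ← Real.rpow_mul hq0.le]
    congr 1
    ring
  have hq23 : (q : ℝ) ^ (m + 1) * q ≤ (q : ℝ) ^ (m + 3) := by
    rw [← pow_succ]
    exact pow_le_pow_right₀ hq1 (by omega)
  obtain ⟨Kp, hKp⟩ : ∃ Kp : ℝ, Kp = (K : ℝ) ^ (487692 / 1000000 : ℝ) := ⟨_, rfl⟩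
  obtain ⟨Km, hKm⟩ : ∃ Km : ℝ, Km = (K : ℝ) ^ (-(505 / 1000 : ℝ)) := ⟨_, rfl⟩
  obtain ⟨L2, hL2⟩ : ∃ L2 : ℝ, L2 = (2 : ℝ) ^ (27 / 100 * l : ℝ) := ⟨_, rfl⟩
  have hKp0 : 0 < Kp := by rw [hKp]; positivity
  have hKm0 : 0 < Km := by rw [hKm]; positivity
  have hL20 : 0 < L2 := by rw [hL2]; positivity
  unfold s0
  rw [← hKp, ← hL2] at hX2
  rw [← hKp, ← hKm] at hKK
  rw [← hKm, ← hL2]
  obtain ⟨Qt, hQt⟩ : ∃ Qt : ℝ, Qt = (q : ℝ) ^ (-(17 / 1000 * t₁ : ℝ)) := ⟨_, rfl⟩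
  rw [← hQt] at hKK ⊢
  have hA : (q : ℝ) ^ (kk * (m + 1 : ℝ)) * X ≤ (q : ℝ) ^ (m + 1) * (q * (Kp * L2)) :=
    (mul_le_mul_of_nonneg_left hX2 (by positivity)).trans
      (mul_le_mul_of_nonneg_right hm1 (by positivity))
  calc 6 ^ n * ((q : ℝ) ^ (kk * (m + 1 : ℝ)) * X) * (20 * Km) * 100
      ≤ 6 ^ n * ((q : ℝ) ^ (m + 1) * (q * (Kp * L2))) * (20 * Km) * 100 := by
        apply mul_le_mul_of_nonneg_right _ (by norm_num)
        apply mul_le_mul_of_nonneg_right _ (by positivity)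
        exact mul_le_mul_of_nonneg_left hA (by positivity)
    _ ≤ 6 ^ (2 * c) * ((q : ℝ) ^ (m + 1) * (q * (Kp * L2))) * (20 * Km) * 100 := by
        apply mul_le_mul_of_nonneg_right _ (by norm_num)
        apply mul_le_mul_of_nonneg_right _ (by positivity)
        exact mul_le_mul_of_nonneg_right h6 (by positivity)
    _ = 6 ^ (2 * c) * 20 * 100 * ((q : ℝ) ^ (m + 1) * q) * L2 * (Kp * Km) := by ring
    _ ≤ 6 ^ (2 * c) * 20 * 100 * ((q : ℝ) ^ (m + 3)) * L2 * (Kp * Km) := by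
        apply mul_le_mul_of_nonneg_right _ (by positivity)
        apply mul_le_mul_of_nonneg_right _ (by positivity)
        exact mul_le_mul_of_nonneg_left hq23 (by positivity)
    _ ≤ 6 ^ (2 * c) * 20 * 100 * ((q : ℝ) ^ (m + 3)) * L2 * Qt :=
        mul_le_mul_of_nonneg_left hKK (by positivity)

open Classical in
/-- row CRF -/
theorem crf (hETR : ETRStmt) (hKER : KERStmt) (hCRP : CRPStmt) (hCRX : CRXStmt) (hMSS : MSSStmt)
    (hCRN : CRNStmt) (hCRU : Pool.FD.CRUStmt) (hGLP : GLPStmt) (hGLZ : GLZStmt) : CRFStmt := by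
  intro q m g t₁ l k G Jt c K wm hP b n E hb hnb hn1 hn2 hv1 hv2 hK hE hEc hD x hx
  have hq := hP.hq
  have hm := hP.hm
  have hg := hP.hg
  have hl := hP.hl
  have hk := hP.hk
  have hlk : 0 < l * k := Nat.mul_pos hl hk
  have hkk : 0 ≤ kk := by unfold kk; norm_num
  have hq0 : (0 : ℝ) < q := by exact_mod_cast (by omega : 0 < q)
  have hq1 : (1 : ℝ) ≤ q := by exact_mod_cast (by omega : 1 ≤ q)
  have hK1 : 1 ≤ K := le_trans (Nat.one_le_pow _ _ (by omega)) hK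
  have hK0 : (0 : ℝ) < K := by exact_mod_cast hK1
  have hK1' : (1 : ℝ) ≤ K := by exact_mod_cast hK1
  obtain ⟨v, hv⟩ : ∃ v : ℕ, v = vv l K := ⟨_, rfl⟩
  rw [← hv] at hv1 hv2 hD
  obtain ⟨n', rfl⟩ : ∃ n', n = n' + 1 := ⟨n - 1, by omega⟩
  obtain ⟨J, hJ⟩ : ∃ J : ℕ, J = Jt - l * k * (b - (n' + 1)) := ⟨_, rfl⟩
  rw [← hJ] at hx ⊢
  obtain ⟨u, hu⟩ : ∃ u : ℕ, u = k * (n' + 1) - v := ⟨_, rfl⟩
  have huk : u < k := by omega
  have huv : u + v = k * (n' + 1) := by omega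
  have hbn : l * k * b = l * k * (b - (n' + 1)) + l * k * (n' + 1) := by
    rw [← Nat.mul_add]; congr 1; omega
  have hJn : l * k * (n' + 1) ≤ J := by omega
  have hlkn : l * k ≤ l * k * (n' + 1) := Nat.le_mul_of_pos_right _ (by omega)
  have hlkJ : l * k ≤ J := hlkn.trans hJn
  have hluv : l * u + l * v = l * k * (n' + 1) := by
    rw [← Nat.mul_add, huv, Nat.mul_assoc]
  obtain ⟨f, hf⟩ : ∃ f : ℕ × ℕ → ℝ, f = fun y => if (ix K (y.1 * yy q (Jt - l * k * b)),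
    ix K (y.2 * yy q (Jt - l * k * b))) ∈ E then 1 else 0 := ⟨_, rfl⟩
  rw [← hf]
  have hf0 : ∀ y, 0 ≤ f y := by
    intro y; rw [hf]; dsimp only; split_ifs <;> norm_num
  have hom : ∀ J z, 0 ≤ omW q m g t₁ wm (l * k) G Jt J z := fun J z =>
    STP67.omW_nonneg q m g t₁ (l * k) G Jt kk wm hq hP.hmk J z
  -- the bound over the look-back
  obtain ⟨Km, hKm⟩ : ∃ Km : ℝ, Km = (K : ℝ) ^ (-(505 / 1000 : ℝ)) := ⟨_, rfl⟩
  have hKm0 : 0 < Km := by rw [hKm]; positivity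
  have hEP : ∀ y, EP eb l v f y ≤ 20 * Km := by
    intro y
    have h := hCRN hCRU hGLP hGLZ q l K (Jt - l * k * b + l * v) v hq hl hP.marg hK1
      (Nat.le_add_left _ _) E hE hEc ((K : ℝ) ^ (-(48 / 100 : ℝ))) (by positivity)
      (by rw [Nat.add_sub_cancel]; exact hD) y
    rw [Nat.add_sub_cancel] at h
    have h1 : EP eb l v f y ≤ 7 * (K : ℝ) ^ (-(53 / 100 : ℝ)) +
        13 * (K : ℝ) ^ (-(265 / 1000 : ℝ)) * Real.sqrt ((K : ℝ) ^ (-(48 / 100 : ℝ))) := by
      rw [hf]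
      convert h using 3
    refine h1.trans ?_
    have e1 : Real.sqrt ((K : ℝ) ^ (-(48 / 100 : ℝ))) = (K : ℝ) ^ (-(24 / 100 : ℝ)) := by
      rw [Real.sqrt_eq_rpow, ← Real.rpow_mul hK0.le]
      congr 1
      norm_num
    have e2 : (K : ℝ) ^ (-(265 / 1000 : ℝ)) * (K : ℝ) ^ (-(24 / 100 : ℝ)) = Km := by
      rw [hKm, ← Real.rpow_add hK0]
      congr 1
      norm_num
    have e3 : (K : ℝ) ^ (-(53 / 100 : ℝ)) ≤ Km := by
      rw [hKm]
      exact Real.rpow_le_rpow_of_exponent_le hK1' (by norm_num)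
    rw [e1, mul_assoc, e2]
    linarith
  refine (hETR q l k eb _ hom (n' + 1) J f x hf0).trans ?_
  by_cases hG : G ≤ b - (n' + 1)
  · -- all blocks are structured
    have hJG : J + G * (l * k) ≤ Jt := by
      have h1 : G * (l * k) ≤ l * k * (b - (n' + 1)) := by
        rw [Nat.mul_comm]; exact Nat.mul_le_mul_left _ hG
      omega
    have hEP' : ∀ y, EP eb l (k * (n' + 1) - u) f y ≤ 20 * Km := by
      have : k * (n' + 1) - u = v := by omega
      rw [this]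
      exact hEP
    have h := hCRP q m g t₁ l k G Jt kk eb wm hq hm hg hkk hP.hmk hP.marg hl hk hP.ht n' J u
      huk.le hJn hJG f (20 * Km) hf0 (by positivity) hEP' x
    refine h.trans ?_
    have hM := hMSS q m g t₁ l k J wm hP hlkJ x (hx hG) u huk
    have htt : tt q (l * k * (n' + 1)) J = tt q (l * u) J + tt q (l * v) (J - l * u) := by
      rw [← hluv]
      exact (hGLZ q (l * u) J hq (by omega) 0 0).2.2.2.2.2.2 (l * v) (by omega)
    have hqv : (q : ℝ) ^ tt q (l * v) (J - l * u) ≤ q * 2 ^ (l * v) :=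
      (hGLZ q (l * v) (J - l * u) hq (by omega) 0 0).2.2.2.2.2.1.1
    have e1 : (q : ℝ) ^ (kk * ((tt q (l * k * (n' + 1)) J : ℝ) - (tt q (l * u) J : ℝ) + m + 1)) =
        (q : ℝ) ^ (kk * (m + 1 : ℝ)) * (((q : ℝ) ^ tt q (l * v) (J - l * u)) ^ kk) := by
      rw [htt, ← Real.rpow_natCast (q : ℝ) (tt q (l * v) (J - l * u)), ← Real.rpow_mul hq0.le,
        ← Real.rpow_add hq0]
      congr 1
      push_cast
      ring
    rw [e1]
    have hnum := crf_num q m t₁ l K c (n' + 1) hq hl hn2 hK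
      (((q : ℝ) ^ tt q (l * v) (J - l * u)) ^ kk)
      (by rw [← hv]; exact Real.rpow_le_rpow (by positivity) hqv hkk)
    rw [← hKm] at hnum
    refine le_trans ?_ hnum
    apply mul_le_mul_of_nonneg_left hM
    positivity
  · -- the first block is a gap block
    have hJG : Jt < J + G * (l * k) := by
      have h1 : l * k * (b - (n' + 1)) < G * (l * k) := by
        rw [Nat.mul_comm]
        exact Nat.mul_lt_mul_of_pos_right (by omega) hlk
      omega
    have hEP' : ∀ y, EP eb l (k * (n' + 1) - u) f y ≤ 20 * Km := by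
      have : k * (n' + 1) - u = v := by omega
      rw [this]
      exact hEP
    obtain ⟨Bd, hBd⟩ : ∃ Bd : ℕ → ℝ, Bd = fun j => if j = 0 then 1 else
      2 * (q : ℝ) ^ (kk * (tt q (l * k) (J - l * k * j) : ℝ)) := ⟨_, rfl⟩
    have hpw1 : ∀ t : ℕ, (1 : ℝ) ≤ (q : ℝ) ^ (kk * (t : ℝ)) := fun t =>
      Real.one_le_rpow hq1 (by positivity)
    have hBd1 : ∀ j, 1 ≤ Bd j := by
      intro j
      rw [hBd]
      dsimp only
      split_ifs
      · exact le_rfl
      · have := hpw1 (tt q (l * k) (J - l * k * j))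
        linarith
    have hBd2 : ∀ j < n' + 1, ∀ z, 0 ≤ omW q m g t₁ wm (l * k) G Jt (J - l * k * j) z ∧
        omW q m g t₁ wm (l * k) G Jt (J - l * k * j) z ≤ Bd j := by
      intro j hj z
      refine ⟨hom _ _, ?_⟩
      by_cases hj0 : j = 0
      · subst hj0
        have : Bd 0 = 1 := by rw [hBd]; simp
        rw [this, Nat.mul_zero, Nat.sub_zero]
        unfold omW
        rw [if_pos hJG]
      · have e2 : Bd j = 2 * (q : ℝ) ^ (kk * (tt q (l * k) (J - l * k * j) : ℝ)) := by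
          rw [hBd]; simp [hj0]
        unfold omW
        split_ifs
        · exact hBd1 j
        · rw [e2]
          have h2 : l * k * (j + 1) ≤ J := le_trans (Nat.mul_le_mul_left _ (by omega)) hJn
          have h3 : l * k ≤ J - l * k * j := by
            rw [Nat.mul_add, Nat.mul_one] at h2; omega
          exact (hKER q m g t₁ _ kk wm hq hm hg (hP.ht _ h3) hkk hP.hmk).2.2.1 z
    have h := hCRX q l k eb (omW q m g t₁ wm (l * k) G Jt) hP.marg (n' + 1) J u Bd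
      (by omega) hBd2 hBd1 f (20 * Km) hf0 (by positivity) hEP' x
    refine h.trans ?_
    have hprod : ∏ j ∈ range (n' + 1), (3 * Bd j) =
        3 * (6 ^ n' * (q : ℝ) ^ (kk * ((tt q (l * k * (n' + 1)) J : ℝ) - tt q (l * k) J))) := by
      rw [Finset.prod_range_succ', ← CRP31.prod_C q (l * k) J hq kk n', mul_comm]
      have e0 : (3 : ℝ) * Bd 0 = 3 := by rw [hBd]; simp
      rw [e0]
      congr 1
      refine Finset.prod_congr rfl fun j _ => ?_
      rw [hBd]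
      simp only [Nat.add_eq_zero_iff, one_ne_zero, and_false, if_false]
      ring
    rw [hprod]
    have htt : tt q (l * k * (n' + 1)) J = tt q (l * k) J + tt q (l * k * n') (J - l * k) := by
      have e2 : l * k * (n' + 1) = l * k + l * k * n' := by ring
      rw [e2]
      exact (hGLZ q (l * k) J hq hlkJ 0 0).2.2.2.2.2.2 (l * k * n') (by rw [← e2]; exact hJn)
    have hJn' : l * k * n' ≤ J - l * k := by
      rw [Nat.mul_add, Nat.mul_one] at hJn; omega
    have hqv : (q : ℝ) ^ tt q (l * k * n') (J - l * k) ≤ q * 2 ^ (l * v) := by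
      refine ((hGLZ q (l * k * n') (J - l * k) hq hJn' 0 0).2.2.2.2.2.1.1).trans ?_
      apply mul_le_mul_of_nonneg_left _ hq0.le
      apply pow_le_pow_right₀ (by norm_num)
      rw [Nat.mul_assoc]
      apply Nat.mul_le_mul_left
      have : k * (n' + 1) = k * n' + k := by ring
      omega
    have e1 : (q : ℝ) ^ (kk * ((tt q (l * k * (n' + 1)) J : ℝ) - tt q (l * k) J)) =
        ((q : ℝ) ^ tt q (l * k * n') (J - l * k)) ^ kk := by
      rw [htt, ← Real.rpow_natCast (q : ℝ) (tt q (l * k * n') (J - l * k)), ← Real.rpow_mul hq0.le]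
      congr 1
      push_cast
      ring
    rw [e1]
    obtain ⟨X, hX⟩ : ∃ X : ℝ, X = ((q : ℝ) ^ tt q (l * k * n') (J - l * k)) ^ kk := ⟨_, rfl⟩
    have hX0 : 0 ≤ X := by rw [hX]; positivity
    have hnum := crf_num q m t₁ l K c (n' + 1) hq hl hn2 hK X
      (by rw [← hv, hX]; exact Real.rpow_le_rpow (by positivity) hqv hkk)
    rw [← hKm] at hnum
    rw [← hX]
    refine le_trans ?_ hnum
    have hqm : (1 : ℝ) ≤ (q : ℝ) ^ (kk * (m + 1 : ℝ)) := Real.one_le_rpow hq1 (by positivity)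
    have h6 : (0 : ℝ) < 6 ^ n' := by positivity
    have a1 : X ≤ (q : ℝ) ^ (kk * (m + 1 : ℝ)) * X := by nlinarith
    calc 3 * (6 ^ n' * X) * (20 * Km)
        ≤ 6 ^ (n' + 1) * X * (20 * Km) * 100 := by
          rw [pow_succ]
          have : 0 ≤ 6 ^ n' * X * Km := by positivity
          nlinarith
      _ ≤ 6 ^ (n' + 1) * ((q : ℝ) ^ (kk * (m + 1 : ℝ)) * X) * (20 * Km) * 100 := by
          apply mul_le_mul_of_nonneg_right _ (by norm_num)
          apply mul_le_mul_of_nonneg_right _ (by positivity)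
          exact mul_le_mul_of_nonneg_left a1 (by positivity)

end Pool.Agent.H93.FD
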